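import Pool.Agent.K1H53.BI.Plan5
import Pool.Agent.K1H39.BI.Gen

/-! # Gradient estimate for discrete harmonic functions by reflection (project BI, piece GRAD) -/

set_option autoImplicit false

namespace Pool.Agent.K1H37.BI5

open Finset Pool.Agent.K1H53.BI

/-- the linear form -/
def tt (a x : V) : ℤ := a 0 * x 0 + a 1 * x 1 + a 2 * x 2

/-- the reflection -/
def sg (a : V) (m : ℤ) (x : V) : V := fun k => x k - m * tt a x * a k

theorem tt_add (a x y : V) : tt a (x + y) = tt a x + tt a y := by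
  simp only [tt, Pi.add_apply]
  ring

theorem sg_add (a : V) (m : ℤ) (x y : V) : sg a m (x + y) = sg a m x + sg a m y := by
  funext k
  simp only [sg, tt_add, Pi.add_apply]
  ring

theorem nsq_i (x : V) : (nsq x : ℤ) = x 0 ^ 2 + x 1 ^ 2 + x 2 ^ 2 := by
  unfold nsq
  rw [Fin.sum_univ_three]
  push_cast
  simp only [sq_abs]

section refl

variable {a : V} {m : ℤ}

theorem tt_sg (h : m * (a 0 ^ 2 + a 1 ^ 2 + a 2 ^ 2) = 2) (x : V) : tt a (sg a m x) = -tt a x := by
  have e : tt a (sg a m x) = tt a x - m * (a 0 ^ 2 + a 1 ^ 2 + a 2 ^ 2) * tt a x := by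
    simp only [tt, sg]
    ring
  rw [e, h]
  ring

theorem sg_sg (h : m * (a 0 ^ 2 + a 1 ^ 2 + a 2 ^ 2) = 2) (x : V) : sg a m (sg a m x) = x := by
  funext k
  have e : sg a m (sg a m x) k = sg a m x k - m * tt a (sg a m x) * a k := rfl
  have e' : sg a m x k = x k - m * tt a x * a k := rfl
  rw [e, tt_sg h, e']
  ring

theorem nsq_sg (h : m * (a 0 ^ 2 + a 1 ^ 2 + a 2 ^ 2) = 2) (x : V) : nsq (sg a m x) = nsq x := by
  have e : (nsq (sg a m x) : ℤ) = nsq x := by
    rw [nsq_i, nsq_i]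
    have e0 : tt a x = a 0 * x 0 + a 1 * x 1 + a 2 * x 2 := rfl
    simp only [sg]
    obtain ⟨t, ht⟩ : ∃ t, t = tt a x := ⟨_, rfl⟩
    rw [← ht]
    rw [← ht] at e0
    linear_combination (m * t ^ 2) * h + (2 * m * t) * e0
  exact_mod_cast e

theorem dir_inj : Function.Injective dir := by
  intro e e' h
  revert h
  revert e e'
  decide

theorem av_sg (h : m * (a 0 ^ 2 + a 1 ^ 2 + a 2 ^ 2) = 2) (hτ : ∀ e, ∃ e', sg a m (dir e) = dir e')
    (g : V → ℝ) (x : V) : av (fun y => g (sg a m y)) x = av g (sg a m x) := by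
  choose τ hτ' using hτ
  have hinj : Function.Injective τ := by
    intro e e' he
    apply dir_inj
    have h1 : sg a m (dir e) = sg a m (dir e') := by rw [hτ', hτ', he]
    calc dir e = sg a m (sg a m (dir e)) := (sg_sg h _).symm
      _ = sg a m (sg a m (dir e')) := by rw [h1]
      _ = dir e' := sg_sg h _
  have hbij : Function.Bijective τ := Finite.injective_iff_bijective.1 hinj
  unfold av
  congr 1
  simp only [sg_add, hτ']
  exact hbij.sum_comp fun e => g (sg a m x + dir e)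

end refl

theorem tt_dir (a : V) (e : Fin 3 × Bool) : tt a (dir e) = if e.2 then a e.1 else - a e.1 := by
  obtain ⟨j, b⟩ := e
  fin_cases j <;> cases b <;> simp [tt, dir]

/-- the barrier -/
noncomputable def bb (a : V) (K c w : ℝ) (x : V) : ℝ :=
  w * (K * (tt a x : ℝ) + (nsq x : ℝ) - c * (tt a x : ℝ) ^ 2)

theorem av_bb {a : V} {K c w : ℝ} (hc : c * ((a 0 : ℝ) ^ 2 + (a 1 : ℝ) ^ 2 + (a 2 : ℝ) ^ 2) = 3)
    (x : V) : av (bb a K c w) x = bb a K c w x := by
  have h1 : ∀ e : Fin 3 × Bool, bb a K c w (x + dir e) =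
      w * (K * ((tt a x : ℝ) + (if e.2 then (a e.1 : ℝ) else -(a e.1 : ℝ))) +
        ((nsq x : ℝ) + 2 * (if e.2 then (x e.1 : ℝ) else -(x e.1 : ℝ)) + 1) -
        c * ((tt a x : ℝ) + (if e.2 then (a e.1 : ℝ) else -(a e.1 : ℝ))) ^ 2) := by
    intro e
    have h2 : (nsq (x + dir e) : ℝ) = (nsq x : ℝ) + 2 * (if e.2 then (x e.1 : ℝ) else -(x e.1 : ℝ)) + 1 := by
      have := Pool.Agent.K1H39.BI.nsq_add_dir x e
      have h3 : ((nsq (x + dir e) : ℤ) : ℝ) =
          ((nsq x + 2 * (if e.2 then x e.1 else - x e.1) + 1 : ℤ) : ℝ) := by rw [this]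
      push_cast at h3
      exact h3
    have h4 : (tt a (x + dir e) : ℝ) = (tt a x : ℝ) + (if e.2 then (a e.1 : ℝ) else -(a e.1 : ℝ)) := by
      rw [tt_add, tt_dir]
      push_cast
      rfl
    unfold bb
    rw [h2, h4]
  unfold av
  simp only [h1]
  rw [Fintype.sum_prod_type]
  simp only [Fintype.sum_bool, Fin.sum_univ_three]
  simp only [if_true, Bool.false_eq_true, if_false]
  unfold bb
  linear_combination (-(w / 3)) * hc

theorem av_lin (f g : V → ℝ) (r s : ℝ) (x : V) :
    av (fun y => r * f y + s * g y) x = r * av f x + s * av g x := by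
  unfold av
  rw [Finset.sum_add_distrib, ← Finset.mul_sum, ← Finset.mul_sum]
  ring

/-- the estimate for one reflection -/
theorem key (hM : S_MAXP) {n : ℕ} (hn : 1 ≤ n) {S : ℝ} {g : V → ℝ}
    (hg : ∀ x, nsq x ≤ n ^ 2 → av g x = g x)
    (hb : ∀ x, nsq x ≤ (n + 1) ^ 2 → 0 ≤ g x ∧ g x ≤ S) {a : V} {m : ℤ}
    (h : m * (a 0 ^ 2 + a 1 ^ 2 + a 2 ^ 2) = 2) (hA : a 0 ^ 2 + a 1 ^ 2 + a 2 ^ 2 ≤ 2)
    (hτ : ∀ e, ∃ e', sg a m (dir e) = dir e')
    (hs : ∀ e, -1 ≤ tt a (dir e)) (e₁ : Fin 3 × Bool) (he₁ : tt a (dir e₁) = 1) :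
    |g (dir e₁) - g (sg a m (dir e₁))| ≤ 13 * S / n := by
  have hn0 : (0 : ℝ) < n := by exact_mod_cast hn
  have hn1 : (1 : ℝ) ≤ n := by exact_mod_cast hn
  have hS0 : 0 ≤ S := by
    have h1 := hb 0 (by simp [nsq])
    linarith [h1.1, h1.2]
  obtain ⟨A, hAd⟩ : ∃ A : ℝ, A = (a 0 : ℝ) ^ 2 + (a 1 : ℝ) ^ 2 + (a 2 : ℝ) ^ 2 := ⟨_, rfl⟩
  have hA1 : 1 ≤ A := by
    have h1 : 0 < a 0 ^ 2 + a 1 ^ 2 + a 2 ^ 2 := by
      have h2 : 0 ≤ a 0 ^ 2 + a 1 ^ 2 + a 2 ^ 2 := by positivity
      rcases h2.eq_or_lt with h3 | h3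
      · rw [← h3, mul_zero] at h
        norm_num at h
      · exact h3
    have h2 : (1 : ℤ) ≤ a 0 ^ 2 + a 1 ^ 2 + a 2 ^ 2 := h1
    rw [hAd]
    exact_mod_cast h2
  have hA2 : A ≤ 2 := by
    rw [hAd]
    exact_mod_cast hA
  obtain ⟨c, hc⟩ : ∃ c : ℝ, c = 3 / A := ⟨_, rfl⟩
  have hcA : c * A = 3 := by
    rw [hc]; field_simp
  have hc0 : 0 < c := by rw [hc]; positivity
  obtain ⟨K, hK⟩ : ∃ K : ℝ, K = 6 * A * n := ⟨_, rfl⟩
  obtain ⟨w, hw⟩ : ∃ w : ℝ, w = 1 / (n : ℝ) ^ 2 := ⟨_, rfl⟩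
  have hw0 : 0 < w := by rw [hw]; positivity
  have hwn : w * (n : ℝ) ^ 2 = 1 := by rw [hw]; field_simp
  have havb : ∀ x, av (bb a K c w) x = bb a K c w x := fun x => av_bb (by rw [← hAd]; exact hcA) x
  -- the function
  have main : ∀ s : ℝ, (s = 1 ∨ s = -1) →
      0 ≤ S * bb a K c w (dir e₁) + s * (g (dir e₁) - g (sg a m (dir e₁))) := by
    intro s hs1
    refine hM ((BR n).filter fun x => 1 ≤ tt a x)
      (fun x => S * bb a K c w x + s * (g x - g (sg a m x))) ?_ ?_ (dir e₁) ?_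
    · intro x hx
      rw [mem_filter, mem_BR] at hx
      rw [av_lin (bb a K c w) (fun y => g y - g (sg a m y)) S s x, havb]
      have e1 : av (fun y => g y - g (sg a m y)) x = g x - g (sg a m x) := by
        have e2 := av_lin g (fun y => g (sg a m y)) 1 (-1) x
        have e3 : (fun y => 1 * g y + -1 * g (sg a m y)) = fun y => g y - g (sg a m y) := by
          funext y; ring
        rw [e3, av_sg h hτ, hg x hx.1, hg (sg a m x) (by rw [nsq_sg h]; exact hx.1)] at e2
        rw [e2]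
        ring
      rw [e1]
    · intro x hx e hxe
      rw [mem_filter, mem_BR] at hx
      obtain ⟨y, hy⟩ : ∃ y, y = x + dir e := ⟨_, rfl⟩
      rw [← hy] at hxe ⊢
      have hyn : nsq y ≤ (n + 1) ^ 2 := by
        rw [hy]; exact Pool.Agent.K1H39.BI.nsq_dir_le hx.1 e
      have hyt : 0 ≤ tt a y := by
        rw [hy, tt_add]
        have := hs e
        omega
      rcases hyt.eq_or_lt with h0 | h0
      · -- on the mirror
        have e1 : sg a m y = y := by
          funext k
          simp only [sg, ← h0]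
          ring
        have e2 : bb a K c w y = w * (nsq y : ℝ) := by
          unfold bb
          rw [← h0]
          push_cast
          ring
        rw [e1, e2, sub_self, mul_zero, add_zero]
        positivity
      · -- outside the ball
        have hny : n ^ 2 < nsq y := by
          by_contra hcon
          apply hxe
          rw [mem_filter, mem_BR]
          exact ⟨not_lt.1 hcon, h0⟩
        have h1 := hb y hyn
        have h2 := hb (sg a m y) (by rw [nsq_sg h]; exact hyn)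
        have h3 : -S ≤ s * (g y - g (sg a m y)) := by
          rcases hs1 with rfl | rfl
          · linarith [h1.1, h2.2]
          · linarith [h1.2, h2.1]
        have h4 : 1 ≤ bb a K c w y := by
          -- Cauchy-Schwarz
          obtain ⟨t, ht⟩ : ∃ t : ℝ, t = (tt a y : ℝ) := ⟨_, rfl⟩
          have ht0 : 0 < t := by rw [ht]; exact_mod_cast h0
          have hN : (nsq y : ℝ) = (y 0 : ℝ) ^ 2 + (y 1 : ℝ) ^ 2 + (y 2 : ℝ) ^ 2 := by
            have := nsq_i y
            have e3 : ((nsq y : ℤ) : ℝ) = ((y 0 ^ 2 + y 1 ^ 2 + y 2 ^ 2 : ℤ) : ℝ) := by rw [this]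
            push_cast at e3
            exact e3
          have hcs : t ^ 2 ≤ A * (nsq y : ℝ) := by
            rw [hN, hAd, ht]
            simp only [tt]
            push_cast
            nlinarith [sq_nonneg ((a 0 : ℝ) * y 1 - a 1 * y 0), sq_nonneg ((a 0 : ℝ) * y 2 - a 2 * y 0),
              sq_nonneg ((a 1 : ℝ) * y 2 - a 2 * y 1)]
          have hyn' : (nsq y : ℝ) ≤ ((n : ℝ) + 1) ^ 2 := by exact_mod_cast hyn
          have h5 : (nsq y : ℝ) ≤ 4 * (n : ℝ) ^ 2 := by nlinarith
          have h6 : t ^ 2 ≤ (2 * A ^ 2 * n) ^ 2 := by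
            calc t ^ 2 ≤ A * (nsq y : ℝ) := hcs
              _ ≤ A * (4 * (n : ℝ) ^ 2) := by gcongr
              _ ≤ A ^ 4 * (4 * (n : ℝ) ^ 2) := by
                have : A ≤ A ^ 4 := le_self_pow₀ hA1 (by norm_num)
                gcongr
              _ = (2 * A ^ 2 * n) ^ 2 := by ring
          have h7 : t ≤ 2 * A ^ 2 * n := by
            have h8 : 0 ≤ 2 * A ^ 2 * n := by positivity
            exact (le_abs_self t).trans (abs_le_of_sq_le_sq h6 h8)
          have h8 : c * t ^ 2 ≤ K * t := by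
            have h9 : c * t ≤ c * (2 * A ^ 2 * n) := mul_le_mul_of_nonneg_left h7 hc0.le
            have h10 : c * (2 * A ^ 2 * n) = K := by
              rw [hK]
              linear_combination (2 * A * n) * hcA
            rw [h10] at h9
            have h11 := mul_le_mul_of_nonneg_right h9 ht0.le
            have h12 : c * t * t = c * t ^ 2 := by ring
            rw [h12] at h11
            exact h11
          have h9 : (n : ℝ) ^ 2 ≤ (nsq y : ℝ) := by exact_mod_cast hny.le
          unfold bb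
          rw [← ht]
          calc (1 : ℝ) = w * (n : ℝ) ^ 2 := hwn.symm
            _ ≤ w * (K * t + (nsq y : ℝ) - c * t ^ 2) := by
              apply mul_le_mul_of_nonneg_left _ hw0.le
              linarith
        have h5 : S ≤ S * bb a K c w y := le_mul_of_one_le_right hS0 h4
        linarith
    · rw [mem_filter, mem_BR]
      refine ⟨?_, he₁.symm.le⟩
      have h1 : nsq (dir e₁) = 1 := by
        obtain ⟨j, b⟩ := e₁
        fin_cases j <;> cases b <;> simp [nsq, dir, Fin.sum_univ_three]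
      rw [h1]
      exact Nat.one_le_pow _ _ hn
  have hb1 : bb a K c w (dir e₁) ≤ 13 / n := by
    have h1 : nsq (dir e₁) = 1 := by
      obtain ⟨j, b⟩ := e₁
      fin_cases j <;> cases b <;> simp [nsq, dir, Fin.sum_univ_three]
    unfold bb
    rw [h1, he₁]
    push_cast
    rw [le_div_iff₀ hn0]
    have h2 : K ≤ 12 * n := by rw [hK]; nlinarith
    calc w * (K * 1 + 1 - c * 1 ^ 2) * n ≤ w * (13 * n) * n := by
          have h3 : K * 1 + 1 - c * 1 ^ 2 ≤ 13 * n := by nlinarith
          gcongr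
      _ = 13 * (w * (n : ℝ) ^ 2) := by ring
      _ = 13 := by rw [hwn, mul_one]
  have hb2 : S * bb a K c w (dir e₁) ≤ 13 * S / n := by
    calc S * bb a K c w (dir e₁) ≤ S * (13 / n) := mul_le_mul_of_nonneg_left hb1 hS0
      _ = 13 * S / n := by ring
  have m1 := main 1 (Or.inl rfl)
  have m2 := main (-1) (Or.inr rfl)
  rw [abs_le]
  constructor <;> linarith

/-- any two neighbours of the origin -/
theorem pair (hM : S_MAXP) {n : ℕ} (hn : 1 ≤ n) {S : ℝ} {g : V → ℝ}
    (hg : ∀ x, nsq x ≤ n ^ 2 → av g x = g x)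
    (hb : ∀ x, nsq x ≤ (n + 1) ^ 2 → 0 ≤ g x ∧ g x ≤ S) (e e' : Fin 3 × Bool) :
    |g (dir e) - g (dir e')| ≤ 13 * S / n := by
  have hS0 : 0 ≤ 13 * S / n := by
    have h1 := hb 0 (by simp [nsq])
    have h2 : 0 ≤ S := by linarith [h1.1, h1.2]
    positivity
  by_cases h1 : e = e'
  · rw [h1, sub_self, abs_zero]
    exact hS0
  · by_cases h2 : e.1 = e'.1
    · -- opposite neighbours
      have h3 : sg (dir e) 2 (dir e) = dir e' := by
        revert h1 h2; revert e e'; decide
      have h4 := key hM hn hg hb (a := dir e) (m := 2) (by clear h1 h2 h3; revert e; decide) (by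
        clear h1 h2 h3; revert e; decide) (by clear h1 h2 h3; revert e; decide) (by clear h1 h2 h3; revert e; decide) e
        (by clear h1 h2 h3; revert e; decide)
      rw [h3] at h4
      exact h4
    · have h3 : sg (dir e - dir e') 1 (dir e) = dir e' := by
        revert h1 h2; revert e e'; decide
      have h4 := key hM hn hg hb (a := dir e - dir e') (m := 1) (by
        revert h1 h2 h3; revert e e'; decide) (by
        revert h1 h2 h3; revert e e'; decide) (by revert h1 h2 h3; revert e e'; decide)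
        (by revert h1 h2 h3; revert e e'; decide) e
        (by revert h1 h2 h3; revert e e'; decide)
      rw [h3] at h4
      exact h4

theorem t_GRAD (hM : S_MAXP) : S_GRAD := by
  refine ⟨13, by norm_num, fun n y₀ S g e hn hg hb => ?_⟩
  obtain ⟨f, hf⟩ : ∃ f : V → ℝ, f = fun x => g (y₀ + x) := ⟨_, rfl⟩
  have hav : ∀ x, av f x = av g (y₀ + x) := by
    intro x
    unfold av
    rw [hf]
    simp only [add_assoc]
  have hg' : ∀ x, nsq x ≤ n ^ 2 → av f x = f x := by
    intro x hx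
    rw [hav, hg _ (by rw [add_sub_cancel_left]; exact hx), hf]
  have hb' : ∀ x, nsq x ≤ (n + 1) ^ 2 → 0 ≤ f x ∧ f x ≤ S := by
    intro x hx
    rw [hf]
    exact hb _ (by rw [add_sub_cancel_left]; exact hx)
  have h1 : ∀ e', |f (dir e) - f (dir e')| ≤ 13 * S / n := fun e' => pair hM hn hg' hb' e e'
  have h2 : f 0 = (∑ e' : Fin 3 × Bool, f (dir e')) / 6 := by
    rw [← hg' 0 (by simp [nsq])]
    unfold av
    simp only [zero_add]
  have h3 : f (dir e) - f 0 = (∑ e' : Fin 3 × Bool, (f (dir e) - f (dir e'))) / 6 := by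
    rw [h2, Finset.sum_sub_distrib]
    have h6 : (∑ _e' : Fin 3 × Bool, f (dir e)) = 6 * f (dir e) := by
      rw [Finset.sum_const, nsmul_eq_mul]
      simp
    rw [h6]
    ring
  have h4 : g (y₀ + dir e) - g y₀ = f (dir e) - f 0 := by
    rw [hf]
    simp only [add_zero]
  rw [h4, h3, abs_div, abs_of_pos (by norm_num : (0 : ℝ) < 6), div_le_iff₀ (by norm_num)]
  calc |∑ e' : Fin 3 × Bool, (f (dir e) - f (dir e'))| ≤
        ∑ e' : Fin 3 × Bool, |f (dir e) - f (dir e')| := Finset.abs_sum_le_sum_abs _ _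
    _ ≤ ∑ _e' : Fin 3 × Bool, 13 * S / n := Finset.sum_le_sum fun e' _ => h1 e'
    _ = 13 * S / n * 6 := by
      rw [Finset.sum_const, nsmul_eq_mul]
      simp
      ring

end Pool.Agent.K1H37.BI5
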